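import Pool.Agent.Helper6.NX.GoalsD

/-! Packet NX-KEYC (project NX of helper6): multinomial coefficients. -/

namespace Pool.Agent.Helper15.NX

open Finset

theorem ratio_le (k : ℕ) : ((k : ℝ) + 1) ^ k ≤ Real.exp 1 * (k : ℝ) ^ k := by
  rcases Nat.eq_zero_or_pos k with rfl | hk
  · simp
  · have hkR : (0 : ℝ) < k := by exact_mod_cast hk
    have h1 : (k : ℝ) + 1 ≤ k * Real.exp (1 / k) := by
      have h2 := Real.add_one_le_exp (1 / (k : ℝ))
      calc (k : ℝ) + 1 = k * (1 / k + 1) := by field_simp; ring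
        _ ≤ k * Real.exp (1 / k) := mul_le_mul_of_nonneg_left h2 hkR.le
    calc ((k : ℝ) + 1) ^ k ≤ (k * Real.exp (1 / k)) ^ k := pow_le_pow_left₀ (by positivity) h1 k
      _ = Real.exp 1 * (k : ℝ) ^ k := by
        rw [mul_pow, ← Real.exp_nat_mul]
        rw [show (k : ℝ) * (1 / k) = 1 by field_simp]
        ring

theorem growth (m M : ℕ) : ((m + M : ℕ) : ℝ) ^ (m + M) * (m.factorial : ℝ) ≤
    Real.exp M * (m : ℝ) ^ m * ((m + M).factorial : ℝ) := by
  induction M with
  | zero => simp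
  | succ M ih =>
    have h1 := ratio_le (m + M)
    have e1 : ((m + (M + 1) : ℕ) : ℝ) = ((m + M : ℕ) : ℝ) + 1 := by push_cast; ring
    have e2 : m + (M + 1) = (m + M) + 1 := by ring
    have e3 : ((m + (M + 1)).factorial : ℝ) =
        (((m + M : ℕ) : ℝ) + 1) * ((m + M).factorial : ℝ) := by
      rw [e2, Nat.factorial_succ]
      push_cast
      ring
    have e4 : Real.exp ((M + 1 : ℕ) : ℝ) = Real.exp 1 * Real.exp M := by
      rw [← Real.exp_add]
      congr 1
      push_cast
      ring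
    rw [e1, e3, e4, e2, pow_succ]
    set x : ℝ := ((m + M : ℕ) : ℝ) with hx
    have hx0 : 0 ≤ x := Nat.cast_nonneg _
    have hf : (0 : ℝ) ≤ (m.factorial : ℝ) := Nat.cast_nonneg _
    calc (x + 1) ^ (m + M) * (x + 1) * (m.factorial : ℝ)
        ≤ (Real.exp 1 * x ^ (m + M)) * (x + 1) * (m.factorial : ℝ) := by
          gcongr
      _ = Real.exp 1 * (x + 1) * (x ^ (m + M) * (m.factorial : ℝ)) := by ring
      _ ≤ Real.exp 1 * (x + 1) * (Real.exp M * (m : ℝ) ^ m * ((m + M).factorial : ℝ)) :=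
          mul_le_mul_of_nonneg_left ih (by positivity)
      _ = _ := by ring

theorem thmKEYC : Pool.Agent.Helper6.NX.S_KEYC := by
  intro τ _ _ t₀ n s hn
  refine ⟨?_, ?_⟩
  · intro N hN hM
    set M := ∑ t ∈ univ.erase t₀, N t with hMdef
    have hsum : N t₀ + M = n := by
      rw [← hN, hMdef]
      exact Finset.add_sum_erase univ N (mem_univ t₀)
    have hnR : (0 : ℝ) < n := by exact_mod_cast hn
    rw [← Finset.mul_prod_erase univ _ (mem_univ t₀),
      ← Finset.mul_prod_erase univ (fun t => ((N t : ℝ) / n) ^ (N t)) (mem_univ t₀)]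
    have h1 : ∏ t ∈ univ.erase t₀, ((N t).factorial : ℝ) ≤
        (n : ℝ) ^ M * ∏ t ∈ univ.erase t₀, ((N t : ℝ) / n) ^ (N t) := by
      rw [hMdef, ← Finset.prod_pow_eq_pow_sum, ← Finset.prod_mul_distrib]
      apply Finset.prod_le_prod
      · intro t _
        positivity
      · intro t _
        rw [← mul_pow, mul_div_cancel₀ _ hnR.ne']
        exact_mod_cast Nat.factorial_le_pow (N t)
    have h2 : ((N t₀).factorial : ℝ) * (n : ℝ) ^ M ≤
        (n.factorial : ℝ) * Real.exp (4 * s) * ((N t₀ : ℝ) / n) ^ (N t₀) := by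
      have h3 := growth (N t₀) M
      rw [hsum] at h3
      have h4 : Real.exp (M : ℝ) ≤ Real.exp (4 * s) := by
        apply Real.exp_le_exp.2
        have : (M : ℝ) ≤ 2 * s := by exact_mod_cast hM
        have hs : (0 : ℝ) ≤ s := Nat.cast_nonneg _
        linarith
      rw [div_pow, ← mul_div_assoc, le_div_iff₀ (by positivity)]
      calc ((N t₀).factorial : ℝ) * (n : ℝ) ^ M * (n : ℝ) ^ (N t₀)
          = (n : ℝ) ^ n * ((N t₀).factorial : ℝ) := by
            rw [mul_assoc, ← pow_add, add_comm M, hsum, mul_comm]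
        _ ≤ Real.exp M * (N t₀ : ℝ) ^ (N t₀) * (n.factorial : ℝ) := h3
        _ ≤ Real.exp (4 * s) * (N t₀ : ℝ) ^ (N t₀) * (n.factorial : ℝ) := by gcongr
        _ = _ := by ring
    have h5 : 0 ≤ ∏ t ∈ univ.erase t₀, ((N t : ℝ) / n) ^ (N t) :=
      Finset.prod_nonneg fun t _ => by positivity
    calc ((N t₀).factorial : ℝ) * ∏ t ∈ univ.erase t₀, ((N t).factorial : ℝ)
        ≤ ((N t₀).factorial : ℝ) * ((n : ℝ) ^ M * ∏ t ∈ univ.erase t₀, ((N t : ℝ) / n) ^ (N t)) :=
          mul_le_mul_of_nonneg_left h1 (Nat.cast_nonneg _)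
      _ = (((N t₀).factorial : ℝ) * (n : ℝ) ^ M) *
          ∏ t ∈ univ.erase t₀, ((N t : ℝ) / n) ^ (N t) := by ring
      _ ≤ ((n.factorial : ℝ) * Real.exp (4 * s) * ((N t₀ : ℝ) / n) ^ (N t₀)) *
          ∏ t ∈ univ.erase t₀, ((N t : ℝ) / n) ^ (N t) := mul_le_mul_of_nonneg_right h2 h5
      _ = _ := by ring
  · intro 𝒩 h𝒩
    let φ : (τ → ℕ) → (τ → ℕ) := fun N t => if t = t₀ then 0 else N t
    have hinj : Set.InjOn φ 𝒩 := by
      intro N hN N' hN' he
      have h1 : ∀ t, t ≠ t₀ → N t = N' t := by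
        intro t ht
        have := congrFun he t
        simpa [φ, ht] using this
      have h2 : N t₀ = N' t₀ := by
        have e1 := (h𝒩 N hN).1
        have e2 := (h𝒩 N' hN').1
        rw [← Finset.add_sum_erase univ N (mem_univ t₀)] at e1
        rw [← Finset.add_sum_erase univ N' (mem_univ t₀)] at e2
        have e3 : ∑ t ∈ univ.erase t₀, N t = ∑ t ∈ univ.erase t₀, N' t :=
          Finset.sum_congr rfl fun t ht => h1 t (Finset.ne_of_mem_erase ht)
        omega
      funext t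
      by_cases ht : t = t₀
      · rw [ht]; exact h2
      · exact h1 t ht
    let B : τ → Finset ℕ := fun t => if t = t₀ then {0} else range (n + 1)
    have hsub : 𝒩.image φ ⊆ Fintype.piFinset B := by
      intro f hf
      obtain ⟨N, hN, rfl⟩ := Finset.mem_image.1 hf
      rw [Fintype.mem_piFinset]
      intro t
      by_cases ht : t = t₀
      · simp [φ, B, ht]
      · have h1 : N t ≤ n := by
          rw [← (h𝒩 N hN).1]
          exact Finset.single_le_sum (fun _ _ => Nat.zero_le _) (mem_univ t)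
        simp [φ, B, ht]
        omega
    have hlow : ∀ f ∈ 𝒩.image φ, (1 / 2 : ℝ) ^ (2 * s) ≤ ∏ t, (1 / 2 : ℝ) ^ (f t) := by
      intro f hf
      obtain ⟨N, hN, rfl⟩ := Finset.mem_image.1 hf
      rw [Finset.prod_pow_eq_pow_sum]
      apply pow_le_pow_of_le_one (by norm_num) (by norm_num)
      have h1 := (h𝒩 N hN).2
      have h2 : ∑ t, φ N t = ∑ t ∈ univ.erase t₀, N t := by
        rw [← Finset.add_sum_erase univ (φ N) (mem_univ t₀)]
        have e0 : φ N t₀ = 0 := by simp [φ]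
        rw [e0, zero_add]
        apply Finset.sum_congr rfl
        intro t ht
        simp [φ, Finset.ne_of_mem_erase ht]
      omega
    have htot : ∑ f ∈ Fintype.piFinset B, ∏ t, (1 / 2 : ℝ) ^ (f t) ≤ 2 ^ (Fintype.card τ) := by
      rw [← Finset.prod_univ_sum]
      calc ∏ t, ∑ j ∈ B t, (1 / 2 : ℝ) ^ j ≤ ∏ _t : τ, (2 : ℝ) := by
            apply Finset.prod_le_prod
            · intro t _
              exact Finset.sum_nonneg fun _ _ => by positivity
            · intro t _
              by_cases ht : t = t₀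
              · simp [B, ht]
              · simp only [B, ht, if_false]
                exact sum_geometric_two_le _
        _ = 2 ^ (Fintype.card τ) := by simp
    have hcard : (𝒩.card : ℝ) * (1 / 2 : ℝ) ^ (2 * s) ≤ 2 ^ (Fintype.card τ) := by
      rw [← Finset.card_image_of_injOn hinj]
      calc ((𝒩.image φ).card : ℝ) * (1 / 2 : ℝ) ^ (2 * s)
          = ∑ _f ∈ 𝒩.image φ, (1 / 2 : ℝ) ^ (2 * s) := by rw [Finset.sum_const, nsmul_eq_mul]
        _ ≤ ∑ f ∈ 𝒩.image φ, ∏ t, (1 / 2 : ℝ) ^ (f t) := Finset.sum_le_sum hlow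
        _ ≤ ∑ f ∈ Fintype.piFinset B, ∏ t, (1 / 2 : ℝ) ^ (f t) :=
            Finset.sum_le_sum_of_subset_of_nonneg hsub fun _ _ _ =>
              Finset.prod_nonneg fun _ _ => by positivity
        _ ≤ _ := htot
    have h6 : (𝒩.card : ℝ) ≤ 2 ^ (2 * s + Fintype.card τ) := by
      have h7 : (𝒩.card : ℝ) = ((𝒩.card : ℝ) * (1 / 2 : ℝ) ^ (2 * s)) * 2 ^ (2 * s) := by
        rw [mul_assoc, ← mul_pow]
        norm_num
      rw [h7, pow_add, mul_comm ((2 : ℝ) ^ (2 * s))]
      exact mul_le_mul_of_nonneg_right hcard (by positivity)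
    exact_mod_cast h6

end Pool.Agent.Helper15.NX
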